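import Pool.Agent.H36.RP.Targets

/-!
# The remote past of Furstenberg systems of multiplicative functions. Row PRD

The prediction from the past equals the prediction from every earlier past.
-/

set_option autoImplicit false

open MeasureTheory ProbabilityTheory Filter Topology

namespace Pool.Agent.H96.RP

open Pool.Agent.H36.RP
open Pool.Agent.H89.MT (I1 X)

/-- translation by `a` -/
def tau (a : ℤ) (x : X) : X := fun k => x (k + a)

theorem tau_meas (a : ℤ) : Measurable (tau a) :=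
  measurable_pi_lambda _ fun k => measurable_pi_apply (k + a)

theorem tau_cont (a : ℤ) : Continuous (tau a) :=
  continuous_pi fun k => continuous_apply (k + a)

theorem tau_mp {κ : Measure X} (hS : MeasurePreserving S κ κ) (a : ℤ) :
    MeasurePreserving (tau a) κ κ := by
  have hnat : ∀ n : ℕ, MeasurePreserving (tau (n : ℤ)) κ κ := by
    intro n
    induction n with
    | zero =>
      have h0 : tau ((0 : ℕ) : ℤ) = id := by
        funext x k
        simp [tau]
      rw [h0]
      exact MeasurePreserving.id κ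
    | succ n ih =>
      have h1 : tau ((n + 1 : ℕ) : ℤ) = S ∘ tau (n : ℤ) := by
        funext x k
        simp only [tau, S, Function.comp]
        congr 1
        push_cast
        ring
      rw [h1]
      exact hS.comp ih
  obtain ⟨n, rfl | rfl⟩ := Int.eq_nat_or_neg a
  · exact hnat n
  · refine ⟨tau_meas _, ?_⟩
    have h := (hnat n).map_eq
    have hc : tau (-(n : ℤ)) ∘ tau (n : ℤ) = id := by
      funext x k
      simp [tau]
    calc Measure.map (tau (-(n : ℤ))) κ
        = Measure.map (tau (-(n : ℤ))) (Measure.map (tau (n : ℤ)) κ) := by rw [h]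
      _ = Measure.map (tau (-(n : ℤ)) ∘ tau (n : ℤ)) κ :=
          Measure.map_map (tau_meas _) (tau_meas _)
      _ = κ := by rw [hc, Measure.map_id]

theorem int_tau {κ : Measure X} (hS : MeasurePreserving S κ κ) (a : ℤ) {G : X → ℝ}
    (hG : Measurable G) : ∫ x, G (tau a x) ∂κ = ∫ x, G x ∂κ := by
  have h := integral_map (μ := κ) (tau_meas a).aemeasurable (f := G) hG.aestronglyMeasurable
  rw [(tau_mp hS a).map_eq] at h
  exact h.symm

theorem mulI_cont (s : I1) : Continuous (mulI s) := by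
  unfold mulI
  exact Continuous.subtype_mk (continuous_const.mul continuous_subtype_val) _

/-- the twisted dilation centred at `m` -/
def th (s : I1) (p : ℕ) (m : ℤ) (x : X) : X := fun k => mulI s (x (p * (k - m) + m))

theorem th_meas (s : I1) (p : ℕ) (m : ℤ) (q : ℕ) (hp : q + 1 ≤ p) :
    @Measurable X X (past (m - 1 - q)) (past (m - 1)) (th s p m) := by
  rw [measurable_iff_comap_le]
  unfold past
  rw [MeasurableSpace.comap_iSup]
  refine iSup_le fun k => ?_
  rw [MeasurableSpace.comap_iSup]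
  refine iSup_le fun hk => ?_
  rw [MeasurableSpace.comap_comp]
  have hle : (p : ℤ) * (k - m) + m ≤ m - 1 - q := by
    have hk' : k - m ≤ -1 := by linarith
    have hp' : (q : ℤ) + 1 ≤ p := by exact_mod_cast hp
    nlinarith
  refine le_trans ?_ (le_iSup_of_le ((p : ℤ) * (k - m) + m) (le_iSup_of_le hle le_rfl))
  have he : (fun x : X => x k) ∘ th s p m = mulI s ∘ fun x : X => x ((p : ℤ) * (k - m) + m) := by
    funext x
    rfl
  rw [he, ← MeasurableSpace.comap_comp]
  exact MeasurableSpace.comap_mono (mulI_cont s).measurable.comap_le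

theorem bdd_of_cont {φ : X → ℝ} (h : Continuous φ) : ∃ D : ℝ, ∀ x, |φ x| ≤ D := by
  obtain ⟨D, hD⟩ := isCompact_univ.exists_bound_of_continuousOn (f := φ) h.continuousOn
  exact ⟨D, fun x => by simpa [Real.norm_eq_abs] using hD x (Set.mem_univ x)⟩

theorem integrable_sq {κ : Measure X} [IsProbabilityMeasure κ] {F : X → ℝ} {C : ℝ}
    (hF : AEStronglyMeasurable F κ) (hC : ∀ᵐ x ∂κ, |F x| ≤ C) :
    Integrable (fun x => F x ^ 2) κ := by
  refine Integrable.of_bound (hF.pow 2) (C ^ 2) ?_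
  filter_upwards [hC] with x hx
  have h0 := abs_nonneg (F x)
  rw [Real.norm_eq_abs, abs_of_nonneg (sq_nonneg _), ← sq_abs]
  exact pow_le_pow_left₀ h0 hx 2

theorem step_A (hAPX : T_APX) {κ : Measure X} [IsProbabilityMeasure κ] {f : X → ℝ} {C : ℝ}
    (hf : Measurable f) (hC : ∀ x, |f x| ≤ C) (q : ℤ) {ε : ℝ} (hε : 0 < ε) :
    ∃ (φ : X → ℝ) (H : ℕ), Continuous φ ∧ Measurable[past q] φ ∧ Local H φ ∧
      ∫ x, (f x - φ x) ^ 2 ∂κ ≤ ∫ x, (f x - (κ[f | past q]) x) ^ 2 ∂κ + ε := by
  have hC0 : 0 ≤ C := (abs_nonneg _).trans (hC fun _ => ⟨0, by norm_num, by norm_num⟩)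
  set g : X → ℝ := κ[f | past q] with hg
  have hgm : StronglyMeasurable[past q] g := stronglyMeasurable_condExp
  have hgb : ∀ᵐ x ∂κ, |g x| ≤ C := by
    exact ae_bdd_abs_condExp_of_ae_bdd_abs (m := past q) (μ := κ) (R := C) (f := f)
      (Eventually.of_forall hC)
  set g' : X → ℝ := fun x => max (-C) (min C (g x)) with hg'
  have hg'm : Measurable[past q] g' :=
    (measurable_const.max (measurable_const.min hgm.measurable))
  have hg'b : ∀ x, |g' x| ≤ C := by
    intro x
    rw [abs_le]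
    refine ⟨le_max_left _ _, max_le (by linarith) (min_le_left _ _)⟩
  have hgg : g' =ᵐ[κ] g := by
    filter_upwards [hgb] with x hx
    have h := abs_le.1 hx
    show max (-C) (min C (g x)) = g x
    rw [min_eq_right h.2, max_eq_right h.1]
  set d : ℝ := ∫ x, (f x - g x) ^ 2 ∂κ with hd
  have hd0 : 0 ≤ d := integral_nonneg fun x => sq_nonneg _
  have hdg : ∫ x, (f x - g' x) ^ 2 ∂κ = d := by
    refine integral_congr_ae ?_
    filter_upwards [hgg] with x hx
    show (f x - g' x) ^ 2 = (f x - g x) ^ 2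
    rw [hx]
  set η : ℝ := ε / (2 * (d + 1)) with hη
  have hη0 : 0 < η := by positivity
  set δ : ℝ := (ε / 2) / (1 + 1 / η) with hδ
  have hδ0 : 0 < δ := by positivity
  obtain ⟨φ, H, hφc, hφm, hφl, hφ⟩ := hAPX κ q g' C hg'm hg'b δ hδ0
  refine ⟨φ, H, hφc, hφm, hφl, ?_⟩
  obtain ⟨D, hD⟩ := bdd_of_cont hφc
  have hg'M : Measurable g' := hg'm.mono (past_le q) le_rfl
  have i1 : Integrable (fun x => (f x - g' x) ^ 2) κ :=
    integrable_sq (C := C + C) (hf.sub hg'M).aestronglyMeasurable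
      (Eventually.of_forall fun x => (abs_sub _ _).trans (add_le_add (hC x) (hg'b x)))
  have i2 : Integrable (fun x => (g' x - φ x) ^ 2) κ :=
    integrable_sq (C := C + D) (hg'M.sub hφc.measurable).aestronglyMeasurable
      (Eventually.of_forall fun x => (abs_sub _ _).trans (add_le_add (hg'b x) (hD x)))
  have i3 : Integrable (fun x => (f x - φ x) ^ 2) κ :=
    integrable_sq (C := C + D) (hf.sub hφc.measurable).aestronglyMeasurable
      (Eventually.of_forall fun x => (abs_sub _ _).trans (add_le_add (hC x) (hD x)))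
  have hpt : ∀ x, (f x - φ x) ^ 2 ≤
      (1 + η) * (f x - g' x) ^ 2 + (1 + 1 / η) * (g' x - φ x) ^ 2 := by
    intro x
    have h1 : 0 ≤ (1 / η) * (η * (f x - g' x) - (g' x - φ x)) ^ 2 := by positivity
    have h2 : (1 / η) * (η * (f x - g' x) - (g' x - φ x)) ^ 2 =
        η * (f x - g' x) ^ 2 - 2 * (f x - g' x) * (g' x - φ x) +
          (1 / η) * (g' x - φ x) ^ 2 := by
      field_simp
      ring
    rw [h2] at h1
    nlinarith
  have hint : ∫ x, (f x - φ x) ^ 2 ∂κ ≤ (1 + η) * d + (1 + 1 / η) * δ := by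
    calc ∫ x, (f x - φ x) ^ 2 ∂κ
        ≤ ∫ x, ((1 + η) * (f x - g' x) ^ 2 + (1 + 1 / η) * (g' x - φ x) ^ 2) ∂κ :=
          integral_mono i3 ((i1.const_mul _).add (i2.const_mul _)) hpt
      _ = (1 + η) * d + (1 + 1 / η) * ∫ x, (g' x - φ x) ^ 2 ∂κ := by
          rw [integral_add (i1.const_mul _) (i2.const_mul _), integral_const_mul,
            integral_const_mul, hdg]
      _ ≤ (1 + η) * d + (1 + 1 / η) * δ := by
          have : 0 ≤ 1 + 1 / η := by positivity
          gcongr
  have e1 : (1 + 1 / η) * δ = ε / 2 := by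
    rw [hδ]
    have : (1 + 1 / η) ≠ 0 := by positivity
    field_simp
  have e2 : η * d ≤ ε / 2 := by
    rw [hη, div_mul_eq_mul_div, div_le_div_iff₀ (by positivity) (by norm_num)]
    nlinarith
  linarith

theorem pf_PRD : T_APX → T_PYT → T_PRD := by
  intro hAPX hPYT κ _ hS hStar ψ hψ hψt m q
  have hfc : Continuous fun x : X => ψ (x m) := hψ.comp (continuous_apply m)
  obtain ⟨C, hC⟩ := bdd_of_cont hfc
  have hP := hPYT κ (fun x => ψ (x m)) C hfc.measurable hC
  refine hP.2 (m - 1 - q) (m - 1) (by linarith [Int.natCast_nonneg q]) ?_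
  refine le_of_forall_pos_le_add fun ε hε => ?_
  obtain ⟨φ, H, hφc, hφm, hφl, hφ⟩ := step_A hAPX (κ := κ) hfc.measurable hC (m - 1)
    (half_pos hε)
  obtain ⟨D, hD⟩ := bdd_of_cont hφc
  -- the local function
  set G : X → ℝ := fun x => (ψ (x 0) - φ (tau (-m) x)) ^ 2 with hG
  have hGc : Continuous G :=
    ((hψ.comp (continuous_apply 0)).sub (hφc.comp (tau_cont (-m)))).pow 2
  have hGl : Local (H + m.natAbs) G := by
    intro x x' hx
    have h0 : x 0 = x' 0 := hx 0 (by simp; positivity)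
    have h1 : φ (tau (-m) x) = φ (tau (-m) x') := by
      refine hφl _ _ fun k hk => ?_
      show x (k + -m) = x' (k + -m)
      refine hx _ ?_
      have h2 : |k + -m| ≤ |k| + |m| := by
        have := abs_add_le k (-m)
        rwa [abs_neg] at this
      push_cast
      linarith
    show (ψ (x 0) - φ (tau (-m) x)) ^ 2 = (ψ (x' 0) - φ (tau (-m) x')) ^ 2
    rw [h0, h1]
  have hG1 : ∫ x, G x ∂κ = ∫ x, (ψ (x m) - φ x) ^ 2 ∂κ := by
    rw [← int_tau hS m hGc.measurable]
    refine integral_congr_ae (Eventually.of_forall fun x => ?_)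
    show (ψ (tau m x 0) - φ (tau (-m) (tau m x))) ^ 2 = (ψ (x m) - φ x) ^ 2
    have h1 : tau m x 0 = x m := by simp [tau]
    have h2 : tau (-m) (tau m x) = x := by
      funext k
      simp [tau]
    rw [h1, h2]
  obtain ⟨p, hp, s, hs, hsp⟩ := hStar G (H + m.natAbs) hGc hGl (ε / 2) (q + 1) (half_pos hε)
  obtain ⟨t, ht, htψ⟩ := hψt s hs
  have hdc : Continuous (dil s p) :=
    continuous_pi fun k => (mulI_cont s).comp (continuous_apply _)
  have hG2 : ∫ x, G (dil s p x) ∂κ = ∫ x, (ψ (x m) - t * φ (th s p m x)) ^ 2 ∂κ := by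
    have hi : ∫ x, G (dil s p (tau m x)) ∂κ = ∫ x, G (dil s p x) ∂κ :=
      int_tau hS m (G := fun x => G (dil s p x)) (hGc.comp hdc).measurable
    rw [← hi]
    refine integral_congr_ae (Eventually.of_forall fun x => ?_)
    show (ψ (dil s p (tau m x) 0) - φ (tau (-m) (dil s p (tau m x)))) ^ 2 =
      (ψ (x m) - t * φ (th s p m x)) ^ 2
    have h1 : ψ (dil s p (tau m x) 0) = t * ψ (x m) := by
      rw [← htψ]
      simp [dil, tau]
    have h2 : tau (-m) (dil s p (tau m x)) = th s p m x := by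
      funext k
      simp only [tau, dil, th]
      rfl
    rw [h1, h2]
    have h3 : (t * ψ (x m) - φ (th s p m x)) ^ 2 =
        t ^ 2 * ψ (x m) ^ 2 - 2 * t * ψ (x m) * φ (th s p m x) + φ (th s p m x) ^ 2 := by ring
    have h4 : (ψ (x m) - t * φ (th s p m x)) ^ 2 =
        ψ (x m) ^ 2 - 2 * t * ψ (x m) * φ (th s p m x) + t ^ 2 * φ (th s p m x) ^ 2 := by ring
    rw [h3, h4, ht]
    ring
  have hhm : Measurable[past (m - 1 - q)] fun x : X => t * φ (th s p m x) :=
    Measurable.const_mul (hφm.comp (th_meas s p m q hp)) t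
  have hle := hP.1 (m - 1 - q) (fun x => t * φ (th s p m x)) (|t| * D) hhm (fun x => by
    rw [abs_mul]
    exact mul_le_mul_of_nonneg_left (hD _) (abs_nonneg t))
  have habs := abs_le.1 hsp
  have h5 : ∫ x, (ψ (x m) - φ x) ^ 2 ∂κ ≤
      ∫ x, (ψ (x m) - (κ[fun x => ψ (x m) | past (m - 1)]) x) ^ 2 ∂κ + ε / 2 := hφ
  have h6 : ∫ x, (ψ (x m) - (κ[fun x => ψ (x m) | past (m - 1 - q)]) x) ^ 2 ∂κ ≤
      ∫ x, (ψ (x m) - t * φ (th s p m x)) ^ 2 ∂κ := hle
  show ∫ x, (ψ (x m) - (κ[fun x => ψ (x m) | past (m - 1 - q)]) x) ^ 2 ∂κ ≤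
    ∫ x, (ψ (x m) - (κ[fun x => ψ (x m) | past (m - 1)]) x) ^ 2 ∂κ + ε
  rw [← hG2] at h6
  rw [← hG1] at h5
  linarith [habs.2]

end Pool.Agent.H96.RP
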