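import Pool.Agent.H24.WN.Mass
import Pool.Agent.H36.RP.CMP2
import Pool.Agent.H96.RP.PRD

/-!
# The bridge between the conditional independence given the remote past and the spectral measures
of the components (MP_c59857_nt)

`bp κ n = E(y_n | remote past)`. On almost every component the correlations of `y` and of the
process `bp` at `h ≥ 1` are equal; so the spectral measure of `bp` is the discrete part of that of
`y` plus a multiple `v` of the Lebesgue measure, `0 ≤ v ≤ w`.
-/

set_option autoImplicit false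

open MeasureTheory ProbabilityTheory Filter Topology

namespace Pool.Agent.H96.RP

open Pool.Agent.H36.RP
open Pool.Agent.H89.MT (I1 X)

/-- the bias process: the prediction of the coordinates by the remote past -/
noncomputable def bp (κ : Measure X) (n : ℤ) : X → ℝ := κ[fun x => (x n : ℝ) | remote]

theorem comp_eq (κ : Measure X) [IsProbabilityMeasure κ] (x : X) :
    Pool.Agent.H24.EG.comp κ x = comp κ x := rfl

variable {κ : Measure X} [IsProbabilityMeasure κ]

omit [IsProbabilityMeasure κ] in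
theorem bp_sm (n : ℤ) : StronglyMeasurable[remote] (bp κ n) := stronglyMeasurable_condExp

omit [IsProbabilityMeasure κ] in
theorem bp_meas (n : ℤ) : Measurable (bp κ n) := ((bp_sm n).mono remote_le).measurable

omit [IsProbabilityMeasure κ] in
theorem bp_bdd (n : ℤ) : ∀ᵐ x ∂κ, |bp κ n x| ≤ 1 :=
  ae_bdd_abs_condExp_of_ae_bdd_abs (m := remote) (μ := κ) (R := 1)
    (f := fun x : X => (x n : ℝ)) (Eventually.of_forall fun x => abs_y x n)

theorem int_yy (m n : ℤ) : Integrable (fun x : X => (x m : ℝ) * (x n : ℝ)) κ :=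
  Integrable.of_bound ((meas_y m).mul (meas_y n)).aestronglyMeasurable 1
    (Eventually.of_forall fun x => by
      rw [norm_mul, Real.norm_eq_abs, Real.norm_eq_abs]
      exact mul_le_one₀ (abs_y x m) (abs_nonneg _) (abs_y x n))

theorem int_yb (m n : ℤ) : Integrable ((fun x : X => (x m : ℝ)) * bp κ n) κ :=
  Integrable.of_bound ((meas_y m).mul (bp_meas n)).aestronglyMeasurable 1
    (by
      filter_upwards [bp_bdd (κ := κ) n] with x hx
      rw [Pi.mul_apply, norm_mul, Real.norm_eq_abs, Real.norm_eq_abs]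
      exact mul_le_one₀ (abs_y x m) (abs_nonneg _) hx)

theorem int_bb (m n : ℤ) : Integrable (bp κ m * bp κ n) κ :=
  Integrable.of_bound ((bp_meas m).mul (bp_meas n)).aestronglyMeasurable 1
    (by
      filter_upwards [bp_bdd (κ := κ) n, bp_bdd (κ := κ) m] with x hx hy
      rw [Pi.mul_apply, norm_mul, Real.norm_eq_abs, Real.norm_eq_abs]
      exact mul_le_one₀ hy (abs_nonneg _) hx)

theorem int_y1 (m : ℤ) : Integrable (fun x : X => (x m : ℝ)) κ := by
  have h := int_y κ m 1
  simpa using h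

/-- functions with the same conditional expectation given the remote past have the same integrals
on almost every component -/
theorem int_comp_eq
    (hinv : ∀ A : Set X, MeasurableSet A → S ⁻¹' A = A →
      κ[A.indicator (fun _ => (1 : ℝ)) | remote] =ᵐ[κ] A.indicator (fun _ => (1 : ℝ)))
    {F G : X → ℝ} (hF : Integrable F κ) (hG : Integrable G κ)
    (h : κ[F | remote] =ᵐ[κ] κ[G | remote]) :
    ∀ᵐ x ∂κ, ∫ y, F y ∂(comp κ x) = ∫ y, G y ∂(comp κ x) := by
  have key : κ[F | IS] =ᵐ[κ] κ[G | IS] := by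
    have hD : κ[F - G | IS] =ᵐ[κ] 0 := by
      refine (ae_eq_condExp_of_forall_setIntegral_eq IS_le (hF.sub hG) ?_ ?_ ?_).symm
      · intro s _ _
        exact (integrable_zero X ℝ κ).integrableOn
      · intro J hJ _
        have hJm : MeasurableSet J := hJ.1
        have h2 := hinv J hJm hJ.2
        simp only [Pi.zero_apply, integral_zero]
        rw [← integral_indicator hJm]
        obtain ⟨W, hW⟩ : ∃ W : X → ℝ, W = κ[J.indicator (fun _ => (1 : ℝ)) | remote] := ⟨_, rfl⟩
        rw [← hW] at h2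
        have hWm : StronglyMeasurable[remote] W := by
          rw [hW]
          exact stronglyMeasurable_condExp
        have h3 : J.indicator (F - G) =ᵐ[κ] W * (F - G) := by
          filter_upwards [h2] with x hx
          simp only [Pi.mul_apply]
          rw [hx]
          by_cases hxJ : x ∈ J <;> simp [hxJ]
        have h4 : Integrable (W * (F - G)) κ := ((hF.sub hG).indicator hJm).congr h3
        have h5 := condExp_mul_of_stronglyMeasurable_left hWm h4 (hF.sub hG)
        have h6 : ∫ x, (κ[W * (F - G) | remote]) x ∂κ = ∫ x, (W * (F - G)) x ∂κ :=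
          integral_condExp remote_le
        rw [integral_congr_ae h3, ← h6, integral_congr_ae h5]
        have h7 : W * κ[F - G | remote] =ᵐ[κ] 0 := by
          filter_upwards [h, condExp_sub hF hG remote] with x hx hx2
          simp only [Pi.mul_apply, Pi.zero_apply]
          rw [hx2, Pi.sub_apply, hx]
          simp
        rw [integral_congr_ae h7]
        simp
      · exact stronglyMeasurable_zero.aestronglyMeasurable
    filter_upwards [hD, condExp_sub hF hG IS] with x h1 h2
    rw [h2, Pi.sub_apply, Pi.zero_apply] at h1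
    linarith
  have h1 := condExp_ae_eq_integral_condExpKernel (μ := κ) IS_le hF
  have h2 := condExp_ae_eq_integral_condExpKernel (μ := κ) IS_le hG
  filter_upwards [key, h1, h2] with x h3 h4 h5
  rw [h4, h5] at h3
  exact h3

theorem yb_remote (m n : ℤ) :
    κ[(fun x : X => (x m : ℝ)) * bp κ n | remote] =ᵐ[κ] bp κ m * bp κ n :=
  condExp_mul_of_stronglyMeasurable_right (bp_sm n) (int_yb m n) (int_y1 m)

theorem bb_remote (m n : ℤ) : κ[bp κ m * bp κ n | remote] =ᵐ[κ] bp κ m * bp κ n := by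
  rw [condExp_of_stronglyMeasurable remote_le ((bp_sm m).mul (bp_sm n)) (int_bb m n)]

theorem yy_remote
    (hp : ∀ m : ℤ, κ[fun x => (x m : ℝ) | past (m - 1)] =ᵐ[κ] κ[fun x => (x m : ℝ) | remote])
    {m n : ℤ} (hmn : m < n) :
    κ[(fun x : X => (x m : ℝ)) * (fun x : X => (x n : ℝ)) | remote] =ᵐ[κ] bp κ m * bp κ n := by
  have h0 : StronglyMeasurable[past (n - 1)] (fun x : X => (x m : ℝ)) :=
    (measurable_subtype_coe.comp (meas_coord (by omega))).stronglyMeasurable
  have h1 : κ[(fun x : X => (x m : ℝ)) * (fun x : X => (x n : ℝ)) | past (n - 1)] =ᵐ[κ]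
      (fun x : X => (x m : ℝ)) * κ[fun x : X => (x n : ℝ) | past (n - 1)] :=
    condExp_mul_of_stronglyMeasurable_left h0 (int_yy m n) (int_y1 n)
  have h2 : (fun x : X => (x m : ℝ)) * κ[fun x : X => (x n : ℝ) | past (n - 1)] =ᵐ[κ]
      (fun x : X => (x m : ℝ)) * bp κ n := by
    filter_upwards [hp n] with x hx
    rw [Pi.mul_apply, Pi.mul_apply, hx]
    rfl
  have h3 := condExp_condExp_of_le (μ := κ)
    (f := (fun x : X => (x m : ℝ)) * (fun x : X => (x n : ℝ))) (remote_le_past (n - 1))
    (past_le (n - 1))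
  exact (h3.symm.trans (condExp_congr_ae (h1.trans h2))).trans (yb_remote m n)

/-- the shift maps the remote past onto itself -/
theorem tau_remote (a : ℤ) : MeasurableSpace.comap (tau a) remote ≤ remote := by
  have h1 : ∀ q : ℤ, MeasurableSpace.comap (tau a) (past (q - a)) ≤ past q := by
    intro q
    unfold past
    rw [MeasurableSpace.comap_iSup]
    refine iSup_le fun k => ?_
    rw [MeasurableSpace.comap_iSup]
    refine iSup_le fun hk => ?_
    rw [MeasurableSpace.comap_comp]
    exact le_iSup_of_le (k + a) (le_iSup_of_le (by omega) le_rfl)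
  refine le_iInf fun q => ?_
  exact (MeasurableSpace.comap_mono (remote_le_past (q - a))).trans (h1 q)

theorem tau_rm (a : ℤ) : @Measurable X X remote remote (tau a) := by
  rw [measurable_iff_comap_le]
  exact tau_remote a

/-- the bias process is stationary -/
theorem bp_tau (hS : MeasurePreserving S κ κ) (n a : ℤ) :
    bp κ (n + a) =ᵐ[κ] fun x => bp κ n (tau a x) := by
  have hmp := tau_mp hS a
  have hi : Integrable (fun x => bp κ n (tau a x)) κ :=
    hmp.integrable_comp_of_integrable (g := bp κ n) integrable_condExp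
  refine (ae_eq_condExp_of_forall_setIntegral_eq remote_le (int_y1 (n + a)) ?_ ?_ ?_).symm
  · intro s _ _
    exact hi.integrableOn
  · intro s hs _
    have hB : MeasurableSet[remote] (tau (-a) ⁻¹' s) := tau_rm (-a) hs
    have hB' : MeasurableSet (tau (-a) ⁻¹' s) := remote_le _ hB
    have hsB : s = tau a ⁻¹' (tau (-a) ⁻¹' s) := by
      rw [← Set.preimage_comp]
      have : tau (-a) ∘ tau a = id := by
        funext x k
        simp [tau]
      rw [this, Set.preimage_id]
    have h1 := setIntegral_condExp remote_le (int_y1 (κ := κ) n) hB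
    have h2 : ∫ x in tau a ⁻¹' (tau (-a) ⁻¹' s), bp κ n (tau a x) ∂κ =
        ∫ x in tau (-a) ⁻¹' s, bp κ n x ∂κ := by
      rw [← integral_indicator (hmp.measurable hB'), ← integral_indicator hB']
      exact int_tau hS a (G := (tau (-a) ⁻¹' s).indicator (bp κ n))
        ((bp_meas n).indicator hB')
    have h3 : ∫ x in tau a ⁻¹' (tau (-a) ⁻¹' s), ((x (n + a) : I1) : ℝ) ∂κ =
        ∫ x in tau (-a) ⁻¹' s, ((x n : I1) : ℝ) ∂κ := by
      rw [← integral_indicator (hmp.measurable hB'), ← integral_indicator hB']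
      exact int_tau hS a (G := (tau (-a) ⁻¹' s).indicator (fun x : X => (x n : ℝ)))
        ((meas_y n).indicator hB')
    rw [hsB, h2, h3]
    exact h1
  · exact ((bp_sm n).measurable.comp (tau_rm a)).stronglyMeasurable.aestronglyMeasurable

/-- **The bridge**: on almost every component the correlations of `y` and of the bias process at
`h ≥ 1` are equal -/
theorem bri
    (hp : ∀ m : ℤ, κ[fun x => (x m : ℝ) | past (m - 1)] =ᵐ[κ] κ[fun x => (x m : ℝ) | remote])
    (hinv : ∀ A : Set X, MeasurableSet A → S ⁻¹' A = A →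
      κ[A.indicator (fun _ => (1 : ℝ)) | remote] =ᵐ[κ] A.indicator (fun _ => (1 : ℝ))) :
    ∀ᵐ x ∂κ, ∀ h : ℕ, 1 ≤ h → ∫ y, (y 0 : ℝ) * (y (h : ℤ) : ℝ) ∂(comp κ x) =
      ∫ y, bp κ 0 y * bp κ h y ∂(comp κ x) := by
  rw [ae_all_iff]
  intro h
  by_cases hh : 1 ≤ h
  · have h1 := int_comp_eq hinv (int_yy 0 (h : ℤ)) (int_bb 0 (h : ℤ))
      ((yy_remote hp (m := 0) (n := (h : ℤ)) (by exact_mod_cast hh)).trans
        (bb_remote 0 (h : ℤ)).symm)
    filter_upwards [h1] with x hx _
    exact hx
  · exact Eventually.of_forall fun x h1 => absurd h1 hh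

/-- the noise: `∫ y_0² = ∫ P_0² + ∫ (y_0 - P_0)²` on almost every component -/
theorem noise
    (hinv : ∀ A : Set X, MeasurableSet A → S ⁻¹' A = A →
      κ[A.indicator (fun _ => (1 : ℝ)) | remote] =ᵐ[κ] A.indicator (fun _ => (1 : ℝ))) :
    ∀ᵐ x ∂κ, ∫ y, (y 0 : ℝ) ^ 2 ∂(comp κ x) =
      ∫ y, bp κ 0 y ^ 2 ∂(comp κ x) + ∫ y, ((y 0 : ℝ) - bp κ 0 y) ^ 2 ∂(comp κ x) := by
  have h1 := int_comp_eq hinv (int_yb (κ := κ) 0 0) (int_bb 0 0)
    ((yb_remote 0 0).trans (bb_remote 0 0).symm)
  have hb := ae_comp κ (bp_bdd (κ := κ) 0)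
  filter_upwards [h1, hb] with x h1 hb
  have i1 : Integrable (fun y : X => (y 0 : ℝ) ^ 2) (comp κ x) := int_y (comp κ x) 0 2
  have i2 : Integrable (fun y : X => bp κ 0 y ^ 2) (comp κ x) :=
    integrable_sq (C := 1) (bp_meas 0).aestronglyMeasurable hb
  have i3 : Integrable (fun y : X => (y 0 : ℝ) * bp κ 0 y) (comp κ x) :=
    Integrable.of_bound ((meas_y 0).mul (bp_meas 0)).aestronglyMeasurable 1
      (by
        filter_upwards [hb] with y hy
        rw [norm_mul, Real.norm_eq_abs, Real.norm_eq_abs]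
        exact mul_le_one₀ (abs_y y 0) (abs_nonneg _) hy)
  have h2 : ∫ y, (y 0 : ℝ) * bp κ 0 y ∂(comp κ x) = ∫ y, bp κ 0 y ^ 2 ∂(comp κ x) := by
    have h3 : ∫ y, (y 0 : ℝ) * bp κ 0 y ∂(comp κ x) = ∫ y, bp κ 0 y * bp κ 0 y ∂(comp κ x) := h1
    rw [h3]
    refine integral_congr_ae (Eventually.of_forall fun y => ?_)
    show bp κ 0 y * bp κ 0 y = bp κ 0 y ^ 2
    ring
  have h4 : ∫ y, ((y 0 : ℝ) - bp κ 0 y) ^ 2 ∂(comp κ x) =
      ∫ y, (((y 0 : ℝ) ^ 2 - 2 * ((y 0 : ℝ) * bp κ 0 y)) + bp κ 0 y ^ 2) ∂(comp κ x) := by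
    refine integral_congr_ae (Eventually.of_forall fun y => ?_)
    show ((y 0 : ℝ) - bp κ 0 y) ^ 2 =
      ((y 0 : ℝ) ^ 2 - 2 * ((y 0 : ℝ) * bp κ 0 y)) + bp κ 0 y ^ 2
    ring
  have h5 : ∫ y, (((y 0 : ℝ) ^ 2 - 2 * ((y 0 : ℝ) * bp κ 0 y)) + bp κ 0 y ^ 2) ∂(comp κ x) =
      (∫ y, (y 0 : ℝ) ^ 2 ∂(comp κ x) - 2 * ∫ y, (y 0 : ℝ) * bp κ 0 y ∂(comp κ x)) +
        ∫ y, bp κ 0 y ^ 2 ∂(comp κ x) := by
    have h6 := integral_add (i1.sub (i3.const_mul 2)) i2
    have h7 := integral_sub i1 (i3.const_mul 2)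
    rw [integral_const_mul] at h7
    rw [← h7]
    exact h6
  rw [h4, h5, h2]
  ring

end Pool.Agent.H96.RP
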